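import Pool.Agent.Results.MP_ff4775_nt.CountBelowEntropy
import Pool.Agent.H107.SparseInt

/-!
# All infinite orbits of the Syracuse map miss the windows around the multiples of almost every number, and approach almost
# no point

Let `Syr N = (3 N + 1) / 2 ^ v_2(3 N + 1)` for odd integers `N` (positive or negative). A counterexample to the assertion for
negative odd integers is an orbit which is infinite or ends in a further periodic orbit. Here the infinite orbits are
considered.

**Theorem.** There is `η` smaller than the entropy exponent `H = 0.94995...` such that: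

1. Let `v_m ≥ 1` be a sequence with exponent of convergence at most `τ` (`0` for `b ^ m`, `1 / a` for `(m + 1) ^ a`) and
`θ < 1`. For all real `α` (negative ones for negative orbits) outside of a set of Hausdorff dimension at most
`(η + τ) / (1 - θ)` and ALL infinite orbits of `Syr`, for all large `m` the orbit has no element in the window
`|x - α v_m| ≤ v_m ^ θ`.

2. For every map `φ` of the integers to a metric space (for example the inclusion in the `p`-adic integers) and all `σ > 0`,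
for all `z` outside of a set of Hausdorff dimension at most `η / σ` and ALL infinite orbits only finitely many terms `x` of
the orbit satisfy `dist (φ x) z ≤ |x| ^ (-σ)`.

The proof combines the bound `O(R ^ η)` for the number of the elements of a divergent trajectory of the `3x+1` map in
`[-R, R]` (starting file `CountBelowEntropy` of `MP_ff4775_nt`) with coverings: an infinite orbit of `Syr` is a part of a
divergent trajectory.
-/

set_option autoImplicit false

namespace Pool.Agent.Results.MP_005f52_nt.InfiniteOrbitsInWindows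

open Filter
open Pool.Agent.Results.MP_ff4775_nt.CountBelowEntropy (T)
open Pool.Agent.V35.WM (ExpLe)

/-- the Syracuse map -/
def Syr (N : ℤ) : ℤ := (3 * N + 1) / 2 ^ padicValInt 2 (3 * N + 1)

/-- the orbit of `N` under the Syracuse map is infinite (unbounded) -/
def InfiniteOrbit (N : ℤ) : Prop := (Set.range fun k : ℕ => Syr^[k] N).Infinite

/-- The entropy exponent `0.94995...`. -/
noncomputable def H : ℝ := Real.binEntropy (Real.log 2 / Real.log 3) / Real.log 2

theorem H_pos : 0 < H := by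
  have hl2 : 0 < Real.log 2 := Real.log_pos (by norm_num)
  have hl3 : 0 < Real.log 3 := Real.log_pos (by norm_num)
  have h23 : Real.log 2 < Real.log 3 := Real.log_lt_log (by norm_num) (by norm_num)
  unfold H
  refine div_pos (Real.binEntropy_pos (div_pos hl2 hl3) ?_) hl2
  rw [div_lt_one hl3]
  exact h23

theorem half_iter (j : ℕ) (y : ℤ) : T^[j] (2 ^ j * y) = y := by
  induction j with
  | zero => simp
  | succ j ih =>
    rw [Function.iterate_succ_apply]
    have h : T (2 ^ (j + 1) * y) = 2 ^ j * y := by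
      unfold T
      have h1 : (2 : ℤ) ^ (j + 1) * y = 2 * (2 ^ j * y) := by ring
      rw [h1]
      simp
    rw [h, ih]

theorem syr_step {N : ℤ} (hN : Odd N) : Odd (Syr N) ∧ ∃ j : ℕ, Syr N = T^[j] N := by
  have : Fact (Nat.Prime 2) := ⟨Nat.prime_two⟩
  obtain ⟨a, ha⟩ := hN
  have h0 : 3 * N + 1 ≠ 0 := by omega
  set v := padicValInt 2 (3 * N + 1) with hv
  have hdvd : ((2 : ℕ) : ℤ) ^ v ∣ 3 * N + 1 := padicValInt_dvd _
  obtain ⟨y, hy⟩ := hdvd
  have hy' : 3 * N + 1 = 2 ^ v * y := by exact_mod_cast hy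
  have hsyr : Syr N = y := by
    unfold Syr
    rw [← hv, hy']
    exact Int.mul_ediv_cancel_left _ (by positivity)
  have hv1 : 1 ≤ v := by
    have h1 : ((2 : ℕ) : ℤ) ^ 1 ∣ 3 * N + 1 := ⟨3 * a + 2, by push_cast; rw [ha]; ring⟩
    rcases (padicValInt_dvd_iff 1 (3 * N + 1)).1 h1 with h | h
    · exact absurd h h0
    · exact h
  have hodd : Odd y := by
    rw [← Int.not_even_iff_odd]
    rintro ⟨z, hz⟩
    have h1 : ((2 : ℕ) : ℤ) ^ (v + 1) ∣ 3 * N + 1 := ⟨z, by push_cast; rw [hy', hz]; ring⟩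
    rcases (padicValInt_dvd_iff (v + 1) (3 * N + 1)).1 h1 with h | h
    · exact absurd h h0
    · omega
  refine ⟨hsyr ▸ hodd, v, ?_⟩
  obtain ⟨w, hw⟩ : ∃ w, v = w + 1 := ⟨v - 1, by omega⟩
  rw [hsyr, hw, Function.iterate_succ_apply]
  have hT : T N = 2 ^ w * y := by
    have h1 : 3 * N + 1 = 2 * (2 ^ w * y) := by rw [hy', hw]; ring
    unfold T
    rw [h1, if_neg (by omega)]
    simp
  rw [hT, half_iter]

theorem syr_orbit {N : ℤ} (hN : Odd N) (k : ℕ) : Odd (Syr^[k] N) ∧ ∃ j : ℕ, Syr^[k] N = T^[j] N := by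
  induction k with
  | zero => exact ⟨hN, 0, rfl⟩
  | succ k ih =>
    obtain ⟨h1, j, hj⟩ := ih
    obtain ⟨h2, i, hi⟩ := syr_step h1
    rw [Function.iterate_succ_apply']
    refine ⟨h2, i + j, ?_⟩
    rw [hi, hj, Function.iterate_add_apply]

theorem divergent {N : ℤ} (hN : Odd N) (h : InfiniteOrbit N) : Tendsto (fun k => |T^[k] N|) atTop atTop := by
  have hinf : (Set.range fun k : ℕ => T^[k] N).Infinite := by
    refine h.mono ?_
    rintro _ ⟨k, rfl⟩
    obtain ⟨-, j, hj⟩ := syr_orbit hN k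
    exact ⟨j, hj.symm⟩
  have hne : ∀ i j : ℕ, i < j → T^[i] N ≠ T^[j] N := by
    intro i j hij heq
    apply hinf
    refine (Set.finite_range fun k : Fin j => T^[(k : ℕ)] N).subset ?_
    rintro _ ⟨k, rfl⟩
    induction k using Nat.strong_induction_on with
    | _ k ih =>
      by_cases hk : k < j
      · exact ⟨⟨k, hk⟩, rfl⟩
      · obtain ⟨l, rfl⟩ := Nat.exists_eq_add_of_le (not_lt.1 hk)
        have h1 := ih (l + i) (by omega)
        have h2 : T^[l + i] N = T^[j + l] N := by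
          rw [add_comm j l, Function.iterate_add_apply, Function.iterate_add_apply, heq]
        simp only at h1 ⊢
        rw [← h2]
        exact h1
  have hinj : Function.Injective fun k : ℕ => T^[k] N := by
    intro i j hij
    rcases lt_trichotomy i j with hlt | hlt | hlt
    · exact absurd hij (hne i j hlt)
    · exact hlt
    · exact absurd hij.symm (hne j i hlt)
  rw [tendsto_atTop]
  intro b
  have hfin : {k : ℕ | |T^[k] N| < b}.Finite := by
    have h1 : (Set.Icc (-b) b).Finite := Set.finite_Icc _ _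
    refine (Set.Finite.preimage hinj.injOn h1).subset fun k hk => ?_
    have hk' : |T^[k] N| < b := hk
    obtain ⟨h2, h3⟩ := abs_lt.1 hk'
    exact ⟨h2.le, h3.le⟩
  have h2 := hfin.eventually_cofinite_notMem
  rw [Nat.cofinite_eq_atTop] at h2
  filter_upwards [h2] with k hk
  exact not_lt.1 hk

/-- There is `η < H` such that (1) for `v_m ≥ 1` of exponent of convergence at most `τ`, `θ < 1` and all `α` outside a set of
dimension at most `(η + τ) / (1 - θ)`, for all infinite orbits no element is in the window `|x - α v_m| ≤ v_m ^ θ`, `m`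
large; (2) for all maps `φ` to metric spaces, `σ > 0` and `z` outside a set of dimension at most `η / σ`, for all infinite
orbits only finitely many terms `x` satisfy `dist (φ x) z ≤ |x| ^ (-σ)`; (3) examples of exponents of convergence. -/
theorem result : ∃ η : ℝ, 0 ≤ η ∧ η < H ∧
    (∀ (v : ℕ → ℝ) (τ θ : ℝ), (∀ m, 1 ≤ v m) → 0 ≤ τ → ExpLe v τ → θ < 1 →
      ∃ E : Set ℝ, dimH E ≤ ENNReal.ofReal ((η + τ) / (1 - θ)) ∧ ∀ α ∉ E, ∀ N : ℤ, Odd N → InfiniteOrbit N →
        ∃ m₀ : ℕ, ∀ m : ℕ, m₀ ≤ m → ∀ k : ℕ, (v m) ^ θ < |((Syr^[k] N : ℤ) : ℝ) - α * v m|) ∧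
    (∀ (M : Type) [MetricSpace M] (φ : ℤ → M) (σ : ℝ), 0 < σ →
      ∃ E : Set M, dimH E ≤ ENNReal.ofReal (η / σ) ∧ ∀ z ∉ E, ∀ N : ℤ, Odd N → InfiniteOrbit N →
        {x : ℤ | (∃ k : ℕ, Syr^[k] N = x) ∧ dist (φ x) z ≤ (max 1 |(x : ℝ)|) ^ (-σ)}.Finite) ∧
    (∀ b : ℝ, 1 < b → ExpLe (fun m : ℕ => b ^ m) 0) ∧
    (∀ a : ℝ, 0 < a → ExpLe (fun m : ℕ => ((m : ℝ) + 1) ^ a) (1 / a)) := by
  classical
  obtain ⟨η, C, hη, h⟩ := Pool.Agent.Results.MP_ff4775_nt.CountBelowEntropy.result
  have hsp : ∀ j : {N : ℤ // Odd N ∧ InfiniteOrbit N},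
      Pool.Agent.H107.SI.Sparse {z : ℤ | ∃ k : ℕ, Syr^[k] j.1 = z} (max η 0) := by
    rintro ⟨n, hodd, hn⟩
    refine ⟨|C|, fun R hR F hF => ?_⟩
    have h1 := h n (divergent hodd hn) 0 R hR
    have hfin0 : {z : ℤ | (∃ k : ℕ, T^[k] n = z) ∧ |(z : ℝ) - 0| ≤ R}.Finite := by
      refine (Pool.Agent.H107.SI.ball_finite Set.univ R).subset ?_
      rintro z ⟨_, hz⟩
      rw [sub_zero] at hz
      exact ⟨trivial, hz⟩
    have hsub : (F : Set ℤ) ⊆ {z : ℤ | (∃ k : ℕ, T^[k] n = z) ∧ |(z : ℝ) - 0| ≤ R} := by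
      intro z hz
      obtain ⟨⟨k, hk⟩, hzR⟩ := hF z hz
      obtain ⟨-, j, hj⟩ := syr_orbit hodd k
      refine ⟨⟨j, hj.symm.trans hk⟩, ?_⟩
      rw [sub_zero]
      exact hzR
    have h2 : (F.card : ℝ) ≤ ({z : ℤ | (∃ k : ℕ, T^[k] n = z) ∧ |(z : ℝ) - 0| ≤ R}.ncard : ℝ) := by
      have := Set.ncard_le_ncard hsub hfin0
      rw [Set.ncard_coe_finset] at this
      exact_mod_cast this
    refine h2.trans (h1.trans ?_)
    have h3 : C * R ^ η ≤ |C| * R ^ η := mul_le_mul_of_nonneg_right (le_abs_self C) (by positivity)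
    refine h3.trans (mul_le_mul_of_nonneg_left ?_ (abs_nonneg C))
    exact Real.rpow_le_rpow_of_exponent_le hR (le_max_left _ _)
  refine ⟨max η 0, le_max_right _ _, max_lt hη H_pos, ?_, ?_, Pool.Agent.V35.WM.expLe_geom, Pool.Agent.V35.WM.expLe_pow⟩
  · intro v τ θ hv hτ hvτ hθ
    obtain ⟨E, h1, h2⟩ := Pool.Agent.H107.SI.win (J := {N : ℤ // Odd N ∧ InfiniteOrbit N}) _ (le_max_right _ _) hsp
      hv hτ hvτ hθ
    refine ⟨E, h1, fun α hα n ho hn => ?_⟩
    obtain ⟨m₀, hm₀⟩ := h2 α hα ⟨n, ho, hn⟩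
    exact ⟨m₀, fun m hm k => hm₀ m hm _ ⟨k, rfl⟩⟩
  · intro M _ φ σ hσ
    obtain ⟨E, h1, h2⟩ := Pool.Agent.H107.SI.near (J := {N : ℤ // Odd N ∧ InfiniteOrbit N}) _ (le_max_right _ _) hsp φ hσ
    exact ⟨E, h1, fun z hz n ho hn => h2 z hz ⟨n, ho, hn⟩⟩

end Pool.Agent.Results.MP_005f52_nt.InfiniteOrbitsInWindows
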