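import Pool.Agent.V11243.PD.Coll

/-!
# The Syracuse map on the negative odd integers in residue classes modulo powers of an arbitrary prime

`H = 0.94995...` is the binary entropy of `log 2 / log 3` in bits. Let `0 < η ≤ 1` and `0 < c < 1 - H`.

1. Let `p` be a prime and `σ > 0`. For all `α ∈ ℤ_p` outside of a set of Hausdorff dimension at most
`(1 - c η) / σ` and all large `T`, the `Syr`-orbit of EVERY negative odd `N` with `|N| ≤ T` and
`|N - α|_p ≤ T ^ (-σ)` contains an element of absolute value at most `|N| ^ η`. For `1 - c η < σ < 1` the dimension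
is smaller than one, and the `N` are all negative odd members, up to `T`, of the progression `α` modulo `p ^ j`,
`p ^ j` about `T ^ σ`. For `p = 2` a residue class modulo `2 ^ j` prescribes only the beginning of the orbits.

2. For every map `φ` of the integers to a metric space and `σ > 0`, for all `z` outside of a set of Hausdorff dimension
at most `(1 - c η) / σ`, only finitely many negative odd `N` with `dist (φ N) z ≤ |N| ^ (-σ)` have not this property.
-/

set_option autoImplicit false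

open MeasureTheory

namespace Pool.Agent.Results.MP_005f52_nt.PadicClasses

/-- The Syracuse map. -/
def Syr (N : ℤ) : ℤ := (3 * N + 1) / 2 ^ padicValInt 2 (3 * N + 1)

/-- the binary entropy of `log 2 / log 3` in bits, `0.94995...` -/
noncomputable def H : ℝ := Real.binEntropy (Real.log 2 / Real.log 3) / Real.log 2

/-- the orbit of `N` under the Syracuse map has an element of absolute value at most `|N| ^ η` -/
def Descends (η : ℝ) (N : ℤ) : Prop := ∃ k : ℕ, |((Syr^[k] N : ℤ) : ℝ)| ≤ |(N : ℝ)| ^ η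

open Pool.Agent.V11243.PD (T Bad)

theorem syr_eq (N : ℤ) : 3 * N + 1 = 2 ^ padicValInt 2 (3 * N + 1) * Syr N := by
  unfold Syr
  exact (Int.mul_ediv_cancel' (padicValInt_dvd _)).symm

theorem syr_odd {N : ℤ} (hN : Odd N) : Odd (Syr N) := by
  rw [← Int.not_even_iff_odd]
  intro h
  obtain ⟨m, hm⟩ := h
  have h0 : 3 * N + 1 ≠ 0 := by
    obtain ⟨k, rfl⟩ := hN
    omega
  have h1 := syr_eq N
  have h2 : (2 : ℤ) ^ (padicValInt 2 (3 * N + 1) + 1) ∣ 3 * N + 1 := by
    refine ⟨m, ?_⟩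
    rw [pow_succ]
    nth_rewrite 1 [h1]
    rw [hm]
    ring
  have h3 := (padicValInt_dvd_iff (p := 2) (padicValInt 2 (3 * N + 1) + 1) (3 * N + 1)).1 (by exact_mod_cast h2)
  rcases h3 with h3 | h3
  · exact h0 h3
  · omega

theorem syr_iter_odd {N : ℤ} (hN : Odd N) (k : ℕ) : Odd (Syr^[k] N) := by
  induction k with
  | zero => exact hN
  | succ k ih =>
    rw [Function.iterate_succ_apply']
    exact syr_odd ih

theorem val_pos {N : ℤ} (hN : Odd N) : 1 ≤ padicValInt 2 (3 * N + 1) := by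
  by_contra hcon
  have h0 : padicValInt 2 (3 * N + 1) = 0 := by omega
  have h1 := syr_eq N
  rw [h0, pow_zero, one_mul] at h1
  have h2 := syr_odd hN
  rw [← h1] at h2
  obtain ⟨k, rfl⟩ := hN
  obtain ⟨l, hl⟩ := h2
  omega

/-- the elements of the `T`-orbit of an odd integer are the elements of the `Syr`-orbit times powers of two -/
theorem orbit {N : ℤ} (hN : Odd N) (k : ℕ) : ∃ i j : ℕ, (T 1)^[k] N = 2 ^ i * Syr^[j] N := by
  induction k with
  | zero => exact ⟨0, 0, by simp⟩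
  | succ k ih =>
    obtain ⟨i, j, h⟩ := ih
    rw [Function.iterate_succ_apply', h]
    rcases Nat.eq_zero_or_pos i with rfl | hi
    · rw [pow_zero, one_mul]
      have ho := syr_iter_odd hN j
      set y := Syr^[j] N with hy
      refine ⟨padicValInt 2 (3 * y + 1) - 1, j + 1, ?_⟩
      rw [Function.iterate_succ_apply', ← hy]
      have h1 := syr_eq y
      have h2 := val_pos ho
      have h3 : ¬ y % 2 = 0 := by
        rw [Int.odd_iff] at ho
        omega
      unfold T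
      rw [if_neg h3]
      have h4 : (2 : ℤ) ^ padicValInt 2 (3 * y + 1) = 2 * 2 ^ (padicValInt 2 (3 * y + 1) - 1) := by
        rw [← pow_succ']
        congr 1
        omega
      have h5 : 3 * y + 1 = 2 * (2 ^ (padicValInt 2 (3 * y + 1) - 1) * Syr y) := by
        rw [← mul_assoc, ← h4]
        exact h1
      omega
    · refine ⟨i - 1, j, ?_⟩
      have h4 : (2 : ℤ) ^ i = 2 * 2 ^ (i - 1) := by
        rw [← pow_succ']
        congr 1
        omega
      have h5 : 2 ^ i * Syr^[j] N = 2 * (2 ^ (i - 1) * Syr^[j] N) := by rw [h4]; ring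
      unfold T
      rw [h5, if_pos (by omega)]
      omega

theorem not_bad {η : ℝ} {N : ℤ} (hN : Odd N) (h : N ∉ Bad 0 η) : Descends η N := by
  by_contra hcon
  unfold Descends at hcon
  push Not at hcon
  refine h ⟨1, by norm_num, by norm_num, by simp, fun k => ?_⟩
  obtain ⟨i, j, hk⟩ := orbit hN k
  rw [hk]
  push_cast
  rw [abs_mul, abs_of_nonneg (by positivity : (0 : ℝ) ≤ 2 ^ i)]
  have h1 := hcon j
  have h2 : (1 : ℝ) ≤ 2 ^ i := one_le_pow₀ (by norm_num)
  have h3 : (0 : ℝ) ≤ |((Syr^[j] N : ℤ) : ℝ)| := abs_nonneg _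
  nlinarith

theorem result :
    (∀ η c : ℝ, 0 < η → η ≤ 1 → 0 < c → c < 1 - H →
      (∀ (p : ℕ) [Fact p.Prime] (σ : ℝ), 0 < σ →
        ∃ E : Set ℤ_[p], dimH E ≤ ENNReal.ofReal ((1 - c * η) / σ) ∧
          ∀ α ∉ E, ∃ T₀ : ℝ, ∀ T ≥ T₀, ∀ N : ℤ, N < 0 → Odd N → |(N : ℝ)| ≤ T →
            ‖(N : ℤ_[p]) - α‖ ≤ T ^ (-σ) → Descends η N) ∧
      (∀ (M : Type) [MetricSpace M] (φ : ℤ → M) (σ : ℝ), 0 < σ →
        ∃ E : Set M, dimH E ≤ ENNReal.ofReal ((1 - c * η) / σ) ∧
          ∀ z ∉ E, {N : ℤ | N < 0 ∧ Odd N ∧ dist (φ N) z ≤ |(N : ℝ)| ^ (-σ) ∧ ¬ Descends η N}.Finite)) ∧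
    H < 0.951 := by
  refine ⟨fun η c hη0 hη hc0 hc => ?_, Pool.Agent.H319R2.beta_lt⟩
  obtain ⟨K, hK'⟩ := Pool.Agent.V11243.PD.count_bad le_rfl hη0 hη hc0 hc
  have hK : ∀ X : ℝ, 1 ≤ X → ({x : ℤ | |(x : ℝ)| ≤ X ∧ x ∈ Bad 0 η}.ncard : ℝ) ≤ K * X ^ (1 - c * η) := by
    intro X hX
    have := hK' X hX
    rwa [mul_zero, add_zero] at this
  have hb : 0 < H := Pool.Agent.TH930.PS.beta_pos
  have hs : 0 ≤ 1 - c * η := by nlinarith
  refine ⟨fun p _ σ hσ => ?_, fun M _ φ σ hσ => ?_⟩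
  · obtain ⟨E, h1, h2⟩ := Pool.Agent.V11243.PD.family_int p (fun _ => Bad 0 η) hs (fun _ => ⟨K, hK⟩) hσ
    refine ⟨E, h1, fun α hα => ?_⟩
    obtain ⟨T₀, hT₀⟩ := h2 α hα 0
    exact ⟨T₀, fun T hT N _ hN hx hxα => not_bad hN (hT₀ T hT N hx hxα)⟩
  · obtain ⟨E, h1, h2⟩ := Pool.Agent.H107.ME.dim_family φ (fun x : ℤ => max 1 |(x : ℝ)|)
      (fun x => le_max_left _ _) hs hσ (fun _ : Unit => Bad 0 η) (fun _ ε hε => by
        refine ⟨|K|, fun X hX => ?_⟩
        have hsub : {x : ℤ | x ∈ Bad 0 η ∧ max 1 |(x : ℝ)| ≤ X} ⊆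
            {x : ℤ | |(x : ℝ)| ≤ X ∧ x ∈ Bad 0 η} := by
          rintro x ⟨a, b⟩
          exact ⟨(le_max_right _ _).trans b, a⟩
        have hfin := Pool.Agent.V11243.PD.fin_le X fun x => x ∈ Bad 0 η
        refine ⟨hfin.subset hsub, ?_⟩
        have g1 : ((_ : ℕ) : ℝ) ≤ ((_ : ℕ) : ℝ) := Nat.cast_le.2 (Set.ncard_le_ncard hsub hfin)
        refine g1.trans ((hK X hX).trans ?_)
        refine (mul_le_mul_of_nonneg_right (le_abs_self K) (by positivity)).trans ?_
        exact mul_le_mul_of_nonneg_left (Real.rpow_le_rpow_of_exponent_le hX (by linarith)) (abs_nonneg K))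
    refine ⟨E, h1, fun z hz => (h2 z hz ()).subset ?_⟩
    rintro N ⟨a0, a, b, c'⟩
    refine ⟨?_, ?_⟩
    · by_contra hcon
      exact c' (not_bad a hcon)
    · have h3 : (1 : ℝ) ≤ |(N : ℝ)| := by
        have : 1 ≤ |N| := Int.one_le_abs (by omega)
        exact_mod_cast this
      show dist (φ N) z ≤ (max 1 |(N : ℝ)|) ^ (-σ)
      rw [max_eq_right h3]
      exact b

end Pool.Agent.Results.MP_005f52_nt.PadicClasses
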