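import Pool.Agent.W26.HN.D
import Pool.Agent.H499R2.CO.S3
import Pool.Agent.V11201.SH.Q

set_option autoImplicit false

/-! Short intervals and sufficient sets for the Syracuse map on the negative odd integers. -/

namespace Pool.Agent.Results.MP_005f52_nt.SolidBasins

open Filter Topology

/-- The Syracuse map. -/
def Syr (N : ℤ) : ℤ := (3 * N + 1) / 2 ^ padicValInt 2 (3 * N + 1)

/-- A negative odd integer `N` is in `S` if and only if `Syr N` is in `S`. -/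
def Invariant (S : Set ℤ) : Prop := ∀ N, N < 0 → Odd N → (N ∈ S ↔ Syr N ∈ S)

/-- The integers whose Syracuse orbit contains `z`. -/
def Basin (z : ℤ) : Set ℤ := {N | ∃ k : ℕ, Syr^[k] N = z}

/-- Among the negative odd integers, those in `S` have natural density `δ`:
`2 / X` times the number of negative odd `N ≥ -X` in `S` tends to `δ`. -/
def HasDensity (S : Set ℤ) (δ : ℝ) : Prop :=
  Tendsto (fun X : ℕ => 2 / (X : ℝ) * ({N : ℤ | -(X : ℤ) ≤ N ∧ N < 0 ∧ Odd N ∧ N ∈ S}.ncard : ℝ))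
    atTop (𝓝 δ)

/-- The number of the even `h` in `[1, H]` for which the Syracuse orbits of `x + h` and `x` do not
meet within `log₂ N` steps. -/
noncomputable def apart (N H : ℕ) (x : ℤ) : ℕ :=
  {h : ℕ | 1 ≤ h ∧ h ≤ H ∧ Even h ∧
    ¬ ∃ i j : ℕ, 2 ^ i ≤ N ∧ 2 ^ j ≤ N ∧ Syr^[i] (x + h) = Syr^[j] x}.ncard

/-- The number of the even `h` in `[1, H]` with `x + h` in `S`. -/
noncomputable def inside (S : Set ℤ) (H : ℕ) (x : ℤ) : ℕ :=
  {h : ℕ | 1 ≤ h ∧ h ≤ H ∧ Even h ∧ x + h ∈ S}.ncard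

/-- The number of the even `h` in `[1, H]` with `x + h` not in `S`. -/
noncomputable def outside (S : Set ℤ) (H : ℕ) (x : ℤ) : ℕ :=
  {h : ℕ | 1 ≤ h ∧ h ≤ H ∧ Even h ∧ x + h ∉ S}.ncard

/-- For every `ε > 0` there is `c > 0` such that for every `θ > 0` and for infinitely many `N`, with
`H = ⌊N ^ θ⌋`: for all but at most `ε N` of the `1 ≤ n ≤ N` at least `c H` of the integers
`-n + 1, ..., -n + H` are odd, negative and in `S`. -/
def Spread (S : Set ℤ) : Prop :=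
  ∀ ε : ℝ, 0 < ε → ∃ c : ℝ, 0 < c ∧ ∀ θ : ℝ, 0 < θ → ∃ᶠ N : ℕ in atTop,
    ({n : ℕ | 1 ≤ n ∧ n ≤ N ∧
      (({h : ℕ | 1 ≤ h ∧ h ≤ ⌊(N : ℝ) ^ θ⌋₊ ∧ -(n : ℤ) + h < 0 ∧ Odd (-(n : ℤ) + h) ∧
        -(n : ℤ) + h ∈ S}.ncard : ℕ) : ℝ) < c * ⌊(N : ℝ) ^ θ⌋₊}.ncard : ℝ) ≤ ε * N

/-- `g n = n ^ o(1)`: `log (1 + g n) / log n` tends to `0` -/
def SubPower (g : ℕ → ℕ) : Prop := Tendsto (fun n : ℕ => Real.log (1 + g n) / Real.log n) atTop (𝓝 0)

open Pool.Agent.W26.HN Pool.Agent.H499R2.ND Pool.Agent.H499R2.LT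

/-- after `t` steps of the shortened map the odd part is a Syracuse iterate -/
theorem op_iter {x : ℤ} (hx : x % 2 = 1) (t : ℕ) :
    ∃ i : ℕ, i ≤ t ∧ OP ((Td 1)^[t] x) (Sy^[i] x) := by
  induction t with
  | zero => exact ⟨0, le_rfl, (OP_odd hx).2 rfl⟩
  | succ t ih =>
    obtain ⟨i, hi, h⟩ := ih
    rw [Function.iterate_succ_apply']
    rcases Int.emod_two_eq_zero_or_one ((Td 1)^[t] x) with h2 | h2
    · refine ⟨i, by omega, ?_⟩
      have e : (Td 1)^[t] x = 2 * Td 1 ((Td 1)^[t] x) := by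
        generalize (Td 1)^[t] x = y at h2 ⊢
        unfold Td; rw [if_pos h2]; omega
      rw [e] at h
      exact OP_two.1 h
    · refine ⟨i + 1, by omega, ?_⟩
      rw [Function.iterate_succ_apply']
      rw [OP_odd h2] at h
      rw [OP_Td h2, h]

theorem merge_of {N t : ℕ} {x y : ℤ} (hx : x % 2 = 1) (hy : y % 2 = 1) (ht : 2 ^ t ≤ N)
    (h : (Td 1)^[t] y = (Td 1)^[t] x) : ∃ i j : ℕ, 2 ^ i ≤ N ∧ 2 ^ j ≤ N ∧ Syr^[i] y = Syr^[j] x := by
  obtain ⟨i, hi, h1⟩ := op_iter hy t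
  obtain ⟨j, hj, h2⟩ := op_iter hx t
  rw [h] at h1
  exact ⟨i, j, (Nat.pow_le_pow_right (by norm_num) hi).trans ht,
    (Nat.pow_le_pow_right (by norm_num) hj).trans ht, OP_unique h1 h2⟩

theorem Td_Tz : Td 1 = Pool.Agent.H499R2.CO.Tz 1 := by
  funext x
  rfl

/-- even distances -/
theorem even_le {H : ℕ} {P : ℕ → Prop} : {h : ℕ | 1 ≤ h ∧ h ≤ H ∧ Even h ∧ P h}.ncard ≤
    {j : ℕ | 1 ≤ j ∧ j ≤ H / 2 ∧ P (2 * j)}.ncard := by
  refine Set.ncard_le_ncard_of_injOn (fun h => h / 2) ?_ ?_ ((Set.finite_Icc 1 (H / 2)).subset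
    (fun j hj => ⟨hj.1, hj.2.1⟩))
  · rintro h ⟨h1, h2, h3, h4⟩
    have h3' : h % 2 = 0 := Nat.even_iff.1 h3
    refine ⟨?_, ?_, ?_⟩
    · show 1 ≤ h / 2
      omega
    · show h / 2 ≤ H / 2
      omega
    · show P (2 * (h / 2))
      have : 2 * (h / 2) = h := by omega
      rw [this]; exact h4
  · rintro a ⟨_, _, h3, _⟩ b ⟨_, _, h3', _⟩ hab
    have e1 : a % 2 = 0 := Nat.even_iff.1 h3
    have e2 : b % 2 = 0 := Nat.even_iff.1 h3'
    have e3 : a / 2 = b / 2 := hab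
    omega

theorem apart_le {N H : ℕ} {n : ℕ} (hN : 1 ≤ N) (hn : n % 2 = 1) :
    apart N H (-(n : ℤ)) ≤ Pool.Agent.V11201.SH.late N ((-1) * (n : ℤ)) (H / 2) := by
  unfold apart Pool.Agent.V11201.SH.late
  rw [neg_cast]
  refine (even_le (P := fun h => ¬ ∃ i j : ℕ, 2 ^ i ≤ N ∧ 2 ^ j ≤ N ∧
    Syr^[i] (-(n : ℤ) + h) = Syr^[j] (-(n : ℤ)))).trans ?_
  apply Set.ncard_le_ncard
  · rintro j ⟨h1, h2, h3⟩
    refine ⟨h1, h2, fun h4 => h3 ?_⟩
    obtain ⟨t, ht, h5⟩ := h4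
    rw [max_eq_left hN] at ht
    rw [← Td_Tz] at h5
    refine merge_of (by omega) (by push_cast; omega)
      ((Nat.pow_le_pow_left (show 2 ≤ 4 by norm_num) t).trans ht) ?_
    push_cast
    exact h5.symm
  · exact (Set.finite_Icc 1 (H / 2)).subset (fun j hj => ⟨hj.1, hj.2.1⟩)

/-- invariance along orbits -/
theorem inv_iter' {S : Set ℤ} (hS : Invariant S) {x : ℤ} (hx : x < 0) (hodd : x % 2 = 1) (k : ℕ) :
    x ∈ S ↔ Syr^[k] x ∈ S := by
  induction k with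
  | zero => rfl
  | succ k ih =>
    rw [ih, Function.iterate_succ_apply']
    exact hS _ (Sy_neg hodd hx k) (Int.odd_iff.2 (Sy_odd hodd k))

theorem Sy_pos {x : ℤ} (hx : x % 2 = 1) (hx0 : 0 < x) (j : ℕ) : 0 < Sy^[j] x := by
  obtain ⟨k, _, hk⟩ := Sy_iter hx j
  rw [← hk]
  have := (Pool.Agent.H499R2.ND.Td_one_iter_sign (s := 1) (Or.inl rfl) x k).1 (by omega)
  omega

/-- merging orbits of odd integers stay in or out of an invariant set -/
theorem same {S : Set ℤ} (hS : Invariant S) {x y : ℤ} (hx : x < 0) (hodd : x % 2 = 1)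
    (hodd' : y % 2 = 1) {i j : ℕ} (h : Syr^[i] y = Syr^[j] x) : y ∈ S ↔ x ∈ S := by
  have hy : y < 0 := by
    by_contra hcon
    have h1 := Sy_pos hodd' (by omega) i
    have h2 := Sy_neg hodd hx j
    have h3 : Sy^[i] y = Sy^[j] x := h
    omega
  rw [inv_iter' hS hy hodd' i, h, ← inv_iter' hS hx hodd j]

theorem Invariant.compl {S : Set ℤ} (hS : Invariant S) : Invariant Sᶜ :=
  fun N hN hodd => not_congr (hS N hN hodd)

theorem outside_le {S : Set ℤ} (hS : Invariant S) {N H n : ℕ} (hn1 : 1 ≤ n) (hn : n % 2 = 1)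
    (hnS : -(n : ℤ) ∈ S) : outside S H (-(n : ℤ)) ≤ apart N H (-(n : ℤ)) := by
  unfold outside apart
  apply Set.ncard_le_ncard
  · rintro h ⟨h1, h2, h3, h4⟩
    refine ⟨h1, h2, h3, ?_⟩
    rintro ⟨i, j, _, _, h5⟩
    have h3' : h % 2 = 0 := Nat.even_iff.1 h3
    exact h4 ((same hS (by omega) (by omega) (by omega) h5).2 hnS)
  · exact (Set.finite_Icc 1 H).subset (fun j hj => ⟨hj.1, hj.2.1⟩)

theorem outside_le2 {S : Set ℤ} (hS : Invariant S) {H n : ℕ} (hn1 : 1 ≤ n) (hn : n % 2 = 1)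
    (hnS : -(n : ℤ) ∈ S) : outside S H (-(n : ℤ)) ≤ Pool.Agent.V11201.SH.never2 ((-1) * (n : ℤ)) (H / 2) := by
  unfold outside Pool.Agent.V11201.SH.never2
  rw [neg_cast]
  refine (even_le (P := fun h => -(n : ℤ) + h ∉ S)).trans ?_
  apply Set.ncard_le_ncard
  · rintro j ⟨h1, h2, h3⟩
    refine ⟨h1, h2, fun h4 => h3 ?_⟩
    obtain ⟨t, h5⟩ := h4
    rw [← Td_Tz] at h5
    obtain ⟨i, i', _, _, h6⟩ := merge_of (N := 2 ^ t) (t := t) (x := -(n : ℤ)) (y := -(n : ℤ) + 2 * j)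
      (by omega) (by omega) le_rfl h5.symm
    push_cast
    exact (same hS (by omega) (by omega) (by omega) h6).2 hnS
  · exact (Set.finite_Icc 1 (H / 2)).subset (fun j hj => ⟨hj.1, hj.2.1⟩)

theorem outside_compl (S : Set ℤ) (H : ℕ) (x : ℤ) : outside Sᶜ H x = inside S H x := by
  unfold outside inside
  congr 1
  ext h
  simp only [Set.mem_ofPred_eq, Set.mem_compl_iff, not_not]

theorem fin_sub {N : ℕ} (R : ℕ → Prop) : {n : ℕ | 1 ≤ n ∧ n ≤ N ∧ R n}.Finite :=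
  (Set.finite_Icc 1 N).subset fun n hn => ⟨hn.1, hn.2.1⟩

/-- neighbours merge, all scales -/
theorem nb {ε : ℝ} (hε : 0 < ε) : ∃ θ : ℝ, 0 < θ ∧ ∃ N0 : ℕ, ∀ N ≥ N0,
    ({n : ℕ | 1 ≤ n ∧ n ≤ N ∧ (Odd n ∧ ∃ H : ℕ, 1 ≤ H ∧ (H : ℝ) ≤ (N : ℝ) ^ θ ∧
      ε * H < apart N H (-(n : ℤ)))}.ncard : ℝ) ≤ ε * N := by
  obtain ⟨θ, hθ, N0, h⟩ := Pool.Agent.V11201.SH.late_max (s := -1) (Or.inr rfl) hε
  refine ⟨θ, hθ, max N0 1, fun N hN => le_trans ?_ (h N ((le_max_left _ _).trans hN))⟩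
  exact_mod_cast Set.ncard_le_ncard (by
    rintro n ⟨h1, h2, h3, H, h4, h5, h6⟩
    have h7 : (apart N H (-(n : ℤ)) : ℝ) ≤ Pool.Agent.V11201.SH.late N ((-1) * (n : ℤ)) (H / 2) := by
      exact_mod_cast apart_le ((le_max_right _ _).trans hN) (Nat.odd_iff.1 h3)
    have h8 : ((H / 2 : ℕ) : ℝ) ≤ H := by exact_mod_cast Nat.div_le_self H 2
    rcases Nat.eq_zero_or_pos (H / 2) with h9 | h9
    · exfalso
      rw [h9] at h7
      have e : Pool.Agent.V11201.SH.late N ((-1) * (n : ℤ)) 0 = 0 := by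
        unfold Pool.Agent.V11201.SH.late
        convert Set.ncard_empty ℕ
        rw [Set.eq_empty_iff_forall_notMem]
        rintro j ⟨a1, a2, _⟩
        omega
      rw [e] at h7
      have : 0 ≤ ε * (H : ℝ) := by positivity
      push_cast at h7
      linarith
    · refine ⟨h1, h2, H / 2, h9, h8.trans h5, ?_⟩
      have h10 : ε * ((H / 2 : ℕ) : ℝ) ≤ ε * H := mul_le_mul_of_nonneg_left h8 hε.le
      exact lt_of_le_of_lt h10 (h6.trans_le h7)) (fin_sub _)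

/-- the rate -/
theorem nb_rate : ∃ A : ℝ, 0 < A ∧ ∀ N : ℕ, 16 ≤ N → ∀ (H : ℕ) (κ : ℝ), 0 < κ →
    ({n : ℕ | 1 ≤ n ∧ n ≤ N ∧ (Odd n ∧ κ * H < apart N H (-(n : ℤ)))}.ncard : ℝ) ≤
      A / κ * √ ((1 + Real.log (1 + H)) * (Real.log (Real.log N) / Real.log N)) * N := by
  obtain ⟨A, hA, h⟩ := Pool.Agent.V11201.SH.late_rate (s := -1) (Or.inr rfl)
  refine ⟨A, hA, fun N hN H κ hκ => ?_⟩
  have h1 := h N hN (H / 2) κ hκ
  have h2H : 2 * ((H / 2 : ℕ) : ℝ) ≤ H := by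
    have : 2 * (H / 2) ≤ H := by omega
    exact_mod_cast this
  have h2 : ({n : ℕ | 1 ≤ n ∧ n ≤ N ∧ (Odd n ∧ κ * H < apart N H (-(n : ℤ)))}.ncard : ℝ) ≤
      ({n : ℕ | 1 ≤ n ∧ n ≤ N ∧ κ * (H / 2 : ℕ) < Pool.Agent.V11201.SH.late N ((-1) * (n : ℤ)) (H / 2)}.ncard : ℝ) := by
    exact_mod_cast Set.ncard_le_ncard (by
      rintro n ⟨h1, h2, h3, h4⟩
      refine ⟨h1, h2, ?_⟩
      have h5 : (apart N H (-(n : ℤ)) : ℝ) ≤ Pool.Agent.V11201.SH.late N ((-1) * (n : ℤ)) (H / 2) := by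
        exact_mod_cast apart_le (by omega) (Nat.odd_iff.1 h3)
      have h8 : ((H / 2 : ℕ) : ℝ) ≤ H := by exact_mod_cast Nat.div_le_self H 2
      have h10 : κ * ((H / 2 : ℕ) : ℝ) ≤ κ * H := mul_le_mul_of_nonneg_left h8 hκ.le
      exact lt_of_le_of_lt h10 (h4.trans_le h5)) (fin_sub _)
  refine h2.trans (h1.trans ?_)
  apply mul_le_mul_of_nonneg_right _ (Nat.cast_nonneg _)
  apply mul_le_mul_of_nonneg_left _ (by positivity)
  apply Real.sqrt_le_sqrt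
  apply mul_le_mul_of_nonneg_right _ (Pool.Agent.V11201.SH.lam_pos hN).le
  have : Real.log (1 + 2 * ((H / 2 : ℕ) : ℝ)) ≤ Real.log (1 + (H : ℝ)) :=
    Real.log_le_log (by positivity) (by linarith)
  linarith

theorem density_eq {S : Set ℤ} {δ : ℝ} : HasDensity S δ ↔ Dn (fun n : ℕ => n % 2 = 1 ∧ -(n : ℤ) ∈ S) (δ / 2) := by
  have e : ∀ X : ℕ, ({N : ℤ | -(X : ℤ) ≤ N ∧ N < 0 ∧ Odd N ∧ N ∈ S}.ncard : ℝ)
      = cnt (fun n : ℕ => n % 2 = 1 ∧ -(n : ℤ) ∈ S) X := by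
    intro X
    have e : {N : ℤ | -(X : ℤ) ≤ N ∧ N < 0 ∧ Odd N ∧ N ∈ S}
        = (fun n : ℕ => -(n : ℤ)) '' {n : ℕ | 1 ≤ n ∧ n ≤ X ∧ (n % 2 = 1 ∧ -(n : ℤ) ∈ S)} := by
      ext N
      constructor
      · rintro ⟨g1, g2, g3, g4⟩
        have g3' := Int.odd_iff.1 g3
        refine ⟨N.natAbs, ⟨by omega, by omega, by omega, ?_⟩, ?_⟩
        · have : -((N.natAbs : ℕ) : ℤ) = N := by omega
          rw [this]; exact g4
        · show -((N.natAbs : ℕ) : ℤ) = N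
          omega
      · rintro ⟨n, ⟨g1, g2, g3, g4⟩, rfl⟩
        refine ⟨?_, ?_, ?_, g4⟩
        · show -(X : ℤ) ≤ -(n : ℤ)
          omega
        · show -(n : ℤ) < 0
          omega
        · rw [Int.odd_iff]
          show -(n : ℤ) % 2 = 1
          omega
    rw [e, Set.ncard_image_of_injective _ (fun a b hab => by
      have : -(a : ℤ) = -(b : ℤ) := hab
      omega)]
    rfl
  unfold HasDensity Dn
  simp only [e]
  constructor
  · intro h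
    have h1 := h.const_mul (1 / 2)
    rw [show (1 : ℝ) / 2 * δ = δ / 2 by ring] at h1
    refine h1.congr fun X => ?_
    ring
  · intro h
    have h1 := h.const_mul 2
    rw [mul_div_cancel₀ δ (by norm_num : (2 : ℝ) ≠ 0)] at h1
    refine h1.congr fun X => ?_
    ring

theorem density_compl {S : Set ℤ} {δ : ℝ} (h : HasDensity S δ) : HasDensity Sᶜ (1 - δ) := by
  rw [density_eq] at h ⊢
  have h1 := Pool.Agent.H499R2.ND.odd_density.sub h
  rw [show (1 : ℝ) / 2 - δ / 2 = (1 - δ) / 2 by ring] at h1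
  refine h1.congr fun X => ?_
  rw [← sub_div]
  congr 1
  have e : {n : ℕ | 1 ≤ n ∧ n ≤ X ∧ n % 2 = 1}
      = {n : ℕ | 1 ≤ n ∧ n ≤ X ∧ (n % 2 = 1 ∧ -(n : ℤ) ∈ S)}
      ∪ {n : ℕ | 1 ≤ n ∧ n ≤ X ∧ (n % 2 = 1 ∧ -(n : ℤ) ∈ Sᶜ)} := by
    ext n
    constructor
    · rintro ⟨g1, g2, g3⟩
      by_cases g4 : -(n : ℤ) ∈ S
      · exact Or.inl ⟨g1, g2, g3, g4⟩
      · exact Or.inr ⟨g1, g2, g3, g4⟩
    · rintro (⟨g1, g2, g3, _⟩ | ⟨g1, g2, g3, _⟩) <;> exact ⟨g1, g2, g3⟩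
  unfold Pool.Agent.H499R2.ND.cnt
  rw [e, Set.ncard_union_eq _ (fin_sub _) (fin_sub _)]
  · push_cast; ring
  · rw [Set.disjoint_left]
    rintro n ⟨_, _, _, g⟩ ⟨_, _, _, g'⟩
    exact g' g

/-- The law in one direction, all scales. -/
theorem fill {S : Set ℤ} (hS : Invariant S) {d : ℝ} (hd : HasDensity S d) {g : ℕ → ℕ} (hg : SubPower g)
    {ε : ℝ} (hε : 0 < ε) : HasDensity {x : ℤ | x ∈ S ∧ ∀ H : ℕ, 1 ≤ H → H ≤ g x.natAbs →
      (outside S H x : ℝ) ≤ ε * H} d := by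
  rw [density_eq] at hd ⊢
  refine Pool.Agent.H499R2.CO.HD_congr (Pool.Agent.V11201.SH.never_dens (s := -1) (Or.inr rfl) hg hε) hd
    (fun n hn1 hn => ⟨fun h5 => ⟨h5.1, h5.2, fun H hH1 hH2 => ?_⟩, fun h5 => ⟨h5.1, h5.2.1⟩⟩)
  have e : (-(n : ℤ)).natAbs = n := by omega
  rw [e] at hH2
  have h7 : (outside S H (-(n : ℤ)) : ℝ) ≤ Pool.Agent.V11201.SH.never2 ((-1) * (n : ℤ)) (H / 2) := by
    exact_mod_cast outside_le2 hS hn1 h5.1 h5.2
  have h8 : ((H / 2 : ℕ) : ℝ) ≤ H := by exact_mod_cast Nat.div_le_self H 2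
  have h10 : ε * ((H / 2 : ℕ) : ℝ) ≤ ε * H := mul_le_mul_of_nonneg_left h8 hε.le
  rcases Nat.eq_zero_or_pos (H / 2) with h9 | h9
  · rw [h9] at h7
    have e : Pool.Agent.V11201.SH.never2 ((-1) * (n : ℤ)) 0 = 0 := by
      unfold Pool.Agent.V11201.SH.never2
      convert Set.ncard_empty ℕ
      rw [Set.eq_empty_iff_forall_notMem]
      rintro j ⟨a1, a2, _⟩
      omega
    rw [e] at h7
    have : 0 ≤ ε * (H : ℝ) := by positivity
    push_cast at h7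
    linarith
  · have h11 := hn (H / 2) h9 (by omega)
    linarith

theorem basin_inv (z : ℤ) (hz : ∃ k : ℕ, 1 ≤ k ∧ Syr^[k] z = z) : Invariant (Basin z) := by
  obtain ⟨p, hp, hpz⟩ := hz
  intro N _ _
  constructor
  · rintro ⟨k, hk⟩
    refine ⟨k + p - 1, ?_⟩
    rw [← Function.iterate_succ_apply, show (k + p - 1).succ = p + k by omega, Function.iterate_add_apply, hk, hpz]
  · rintro ⟨k, hk⟩
    exact ⟨k + 1, by rw [Function.iterate_succ_apply]; exact hk⟩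

theorem syr_eq {N M : ℤ} (v : ℕ) (h : 3 * N + 1 = 2 ^ v * M) (hM : M % 2 = 1) : Syr N = M :=
  Pool.Agent.W26.HN.Sy_eq h hM

theorem s1 : Syr (-1) = -1 := syr_eq 1 (by norm_num) (by norm_num)
theorem s5 : Syr (-5) = -7 := syr_eq 1 (by norm_num) (by norm_num)
theorem s7 : Syr (-7) = -5 := syr_eq 2 (by norm_num) (by norm_num)
theorem s17 : Syr (-17) = -25 := syr_eq 1 (by norm_num) (by norm_num)
theorem s25 : Syr (-25) = -37 := syr_eq 1 (by norm_num) (by norm_num)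
theorem s37 : Syr (-37) = -55 := syr_eq 1 (by norm_num) (by norm_num)
theorem s55 : Syr (-55) = -41 := syr_eq 2 (by norm_num) (by norm_num)
theorem s41 : Syr (-41) = -61 := syr_eq 1 (by norm_num) (by norm_num)
theorem s61 : Syr (-61) = -91 := syr_eq 1 (by norm_num) (by norm_num)
theorem s91 : Syr (-91) = -17 := syr_eq 4 (by norm_num) (by norm_num)

theorem cyc1 : ∃ k : ℕ, 1 ≤ k ∧ Syr^[k] (-1) = -1 := ⟨1, le_rfl, s1⟩

theorem cyc5 : ∃ k : ℕ, 1 ≤ k ∧ Syr^[k] (-5) = -5 := by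
  refine ⟨2, by norm_num, ?_⟩
  rw [Function.iterate_succ_apply, s5, Function.iterate_succ_apply, s7, Function.iterate_zero, id_eq]

theorem cyc17 : ∃ k : ℕ, 1 ≤ k ∧ Syr^[k] (-17) = -17 := by
  refine ⟨7, by norm_num, ?_⟩
  rw [Function.iterate_succ_apply, s17, Function.iterate_succ_apply, s25, Function.iterate_succ_apply,
    s37, Function.iterate_succ_apply, s55, Function.iterate_succ_apply, s41, Function.iterate_succ_apply,
    s61, Function.iterate_succ_apply, s91, Function.iterate_zero, id_eq]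

theorem sufficient {R : Set ℤ} (hR : Invariant R) {S : Set ℤ} (hS : Spread S)
    (h : ∀ x ∈ S, x < 0 → Odd x → x ∈ R) : ∀ x, x < 0 → Odd x → x ∈ R := by
  have hR' : ∀ N : ℤ, N < 0 → N % 2 = 1 → (N ∈ R ↔ Sy N ∈ R) :=
    fun N hN hodd => hR N hN (Int.odd_iff.2 hodd)
  have hsp : Pool.Agent.H499R2.CO.Spread (-1) {x : ℤ | x < 0 ∧ Odd x ∧ x ∈ S} := by
    intro ε hε
    obtain ⟨c, hc, hθ⟩ := hS ε hε
    refine ⟨c, hc, fun θ hθ0 => (hθ θ hθ0).mono fun N hN => ?_⟩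
    have e : ∀ n : ℕ, Pool.Agent.H499R2.CO.cnt {x : ℤ | x < 0 ∧ Odd x ∧ x ∈ S} ((-1) * (n : ℤ))
        ⌊(N : ℝ) ^ θ⌋₊ = {h : ℕ | 1 ≤ h ∧ h ≤ ⌊(N : ℝ) ^ θ⌋₊ ∧ -(n : ℤ) + h < 0 ∧
        Odd (-(n : ℤ) + h) ∧ -(n : ℤ) + h ∈ S}.ncard := by
      intro n
      unfold Pool.Agent.H499R2.CO.cnt
      rw [neg_cast]
      rfl
    simp only [e]
    exact hN
  have key := Pool.Agent.H499R2.CO.spread_inv (s := -1) (Or.inr rfl) (R := Lift R) (lift_inv hR')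
    {x : ℤ | x < 0 ∧ Odd x ∧ x ∈ S} hsp (fun x hx _ =>
      (lift_odd (Int.odd_iff.1 hx.2.1) hx.1).2 (h x hx.2.2 hx.1 hx.2.1))
  intro x hx hodd
  exact (lift_odd (Int.odd_iff.1 hodd) hx).1 (key x (by omega))

/-- (0) For at most `(A / κ) √((1 + log (1 + H)) log log N / log N) N` of the odd `n ≤ N` the Syracuse
orbits of `-n` and of `-n + h` do not meet within `log₂ N` steps for more than `κ H` of the even `h ≤ H`.
(1) For every `ε > 0` there are `θ > 0` and `N0` such that for all `N ≥ N0`, for all but at most `ε N` of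
the odd `n ≤ N` and for ALL `1 ≤ H ≤ N ^ θ`: the Syracuse orbits of `-n` and of `-n + h` meet within
`log₂ N` steps for all but at most `ε H` of the even `h ≤ H`.  With the same `θ` and `N0`, for all
sets `S` of negative odd integers which are invariant under the Syracuse map (basins of cycles, the set
of the counterexamples to Q1, ...): apart from at most `ε N` of the odd `n ≤ N`, for all `1 ≤ H ≤ N ^ θ`
the interval `(-n, -n + H]` is in `S` up to `ε H` odd integers if `-n` is in `S`, and outside `S` up to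
`ε H` odd integers if `-n` is not in `S`.
(2) Every invariant set `S` has a density `d` among the negative odd integers, `d > 0` if `S` is not
empty, and if `g n = n ^ o(1)` and `ε > 0`: almost all `-n` in `S` are such that for all `1 ≤ H ≤ g n` the
set `S` contains all but at most `ε H` of the odd integers of `(-n, -n + H]`, and almost all `-n` outside
`S` are such that it contains at most `ε H` of them for all `1 ≤ H ≤ g n`.
(3) The basins of the three known cycles and the set of the counterexamples to Q1 are invariant, and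
the basins are not empty.
(4) Sufficient sets: if `S` is a spread set of integers and all negative odd elements of `S` satisfy
the assertion of Q1, then all negative odd integers do. -/
theorem result :
    (∃ A : ℝ, 0 < A ∧ ∀ N : ℕ, 16 ≤ N → ∀ (H : ℕ) (κ : ℝ), 0 < κ →
      ({n : ℕ | 1 ≤ n ∧ n ≤ N ∧ (Odd n ∧ κ * H < apart N H (-(n : ℤ)))}.ncard : ℝ) ≤
        A / κ * √ ((1 + Real.log (1 + H)) * (Real.log (Real.log N) / Real.log N)) * N) ∧
    (∀ ε : ℝ, 0 < ε → ∃ θ : ℝ, 0 < θ ∧ ∃ N0 : ℕ, ∀ N ≥ N0,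
      ({n : ℕ | 1 ≤ n ∧ n ≤ N ∧ (Odd n ∧ ∃ H : ℕ, 1 ≤ H ∧ (H : ℝ) ≤ (N : ℝ) ^ θ ∧
        ε * H < apart N H (-(n : ℤ)))}.ncard : ℝ) ≤ ε * N ∧
      ∀ S : Set ℤ, Invariant S →
        ({n : ℕ | 1 ≤ n ∧ n ≤ N ∧ (Odd n ∧ ∃ H : ℕ, 1 ≤ H ∧ (H : ℝ) ≤ (N : ℝ) ^ θ ∧
          ((-(n : ℤ) ∈ S ∧ ε * H < outside S H (-(n : ℤ))) ∨
          (-(n : ℤ) ∉ S ∧ ε * H < inside S H (-(n : ℤ)))))}.ncard : ℝ) ≤ ε * N) ∧
    (∀ S : Set ℤ, Invariant S → ∃ d : ℝ, HasDensity S d ∧ ((∃ N, N < 0 ∧ Odd N ∧ N ∈ S) → 0 < d) ∧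
      ∀ g : ℕ → ℕ, SubPower g → ∀ ε : ℝ, 0 < ε →
        HasDensity {x : ℤ | x ∈ S ∧ ∀ H : ℕ, 1 ≤ H → H ≤ g x.natAbs → (outside S H x : ℝ) ≤ ε * H} d ∧
        HasDensity {x : ℤ | x ∉ S ∧ ∀ H : ℕ, 1 ≤ H → H ≤ g x.natAbs → (inside S H x : ℝ) ≤ ε * H} (1 - d)) ∧
    (Invariant (Basin (-1)) ∧ Invariant (Basin (-5)) ∧ Invariant (Basin (-17)) ∧
      Invariant {N : ℤ | N ∉ Basin (-1) ∪ Basin (-5) ∪ Basin (-17)} ∧
      -1 ∈ Basin (-1) ∧ -5 ∈ Basin (-5) ∧ -17 ∈ Basin (-17)) ∧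
    (∀ S : Set ℤ, Spread S →
      (∀ N ∈ S, N < 0 → Odd N → N ∈ Basin (-1) ∪ Basin (-5) ∪ Basin (-17)) →
      ∀ N : ℤ, N < 0 → Odd N → N ∈ Basin (-1) ∪ Basin (-5) ∪ Basin (-17)) := by
  have hB1 : Invariant (Basin (-1)) := basin_inv _ cyc1
  have hB5 : Invariant (Basin (-5)) := basin_inv _ cyc5
  have hB17 : Invariant (Basin (-17)) := basin_inv _ cyc17
  have hU : Invariant (Basin (-1) ∪ Basin (-5) ∪ Basin (-17)) :=
    fun N hN hodd => or_congr (or_congr (hB1 N hN hodd) (hB5 N hN hodd)) (hB17 N hN hodd)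
  refine ⟨nb_rate, fun ε hε => ?_, fun S hS => ?_, ⟨hB1, hB5, hB17, hU.compl, ⟨0, rfl⟩, ⟨0, rfl⟩, ⟨0, rfl⟩⟩,
    fun S hS h => sufficient hU hS h⟩
  · obtain ⟨θ, hθ, N0, h⟩ := nb hε
    refine ⟨θ, hθ, N0, fun N hN => ⟨h N hN, fun S hS => le_trans ?_ (h N hN)⟩⟩
    exact_mod_cast Set.ncard_le_ncard (by
      rintro n ⟨h1, h2, h3, H, h4, h5, h6⟩
      refine ⟨h1, h2, h3, H, h4, h5, ?_⟩
      rcases h6 with ⟨h6, h7⟩ | ⟨h6, h7⟩
      · exact h7.trans_le (by exact_mod_cast outside_le hS h1 (Nat.odd_iff.1 h3) h6)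
      · rw [← outside_compl] at h7
        exact h7.trans_le (by exact_mod_cast outside_le hS.compl h1 (Nat.odd_iff.1 h3) h6)) (fin_sub _)
  · obtain ⟨d, hd0, hd1, _, hd, h0, h1⟩ := Pool.Agent.W26.HN.inv_density (S := S)
      (fun N hN hodd => hS N hN (Int.odd_iff.2 hodd))
    have hdS : HasDensity S d := density_eq.2 hd
    refine ⟨d, hdS, ?_, fun g hg ε hε => ⟨fill hS hdS hg hε, ?_⟩⟩
    · rintro ⟨N, hN, hodd, hNS⟩
      refine lt_of_le_of_ne hd0 fun hcon => ?_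
      exact h0.1 hcon.symm N hN (Int.odd_iff.1 hodd) hNS
    · have h2 := fill hS.compl (density_compl hdS) hg hε
      simp only [outside_compl] at h2
      exact h2

end Pool.Agent.Results.MP_005f52_nt.SolidBasins
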