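import Pool.Agent.Y927.GP.M2
import Pool.Agent.V11113.CT.Traj2
import Pool.Agent.V11113.MR.BilFam

/-!
# The Syracuse map on negative odd integers and thin families

The families consist of the integers `n = z + u i`, where `z` is an arbitrary integer and the `u i` are the least residues modulo
an arbitrary large integer `m` of a family with exponential sums `O(#s m ^ (-ω))`, with an arbitrarily small `ω > 0` (`Small`).
Examples (part (3)): the values `x · Q y + f₁(x) + f₂(y)` modulo a prime `p` at the pairs of vectors of two arbitrary sets with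
`#A #A' ≥ p ^ (k + 2 ω)`; for `k = 1` this contains the products of the elements of two arbitrary sets with
`#A #A' ≥ p ^ (1 + 2 ω)` and the multiplicative subgroups of order `p ^ (1 / 2 + ω)`. Nothing else is assumed about the family;
it may have as few as about `m ^ (2 ω)` different members.

For every nonconstant integer polynomial `f`, for all but a proportion `m ^ (-δ)` of the members `n` for which `N = f n` is
negative and odd, the Syracuse orbit of `N` has a term `N'` with `|N'| < |N|`, and (if `|z| ≤ m ^ B`) even `|N'| ≤ |N| ^ (1 - η)`.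
-/

set_option autoImplicit false

namespace Pool.Agent.Results.MP_005f52_nt.ThinFamilies

open Finset Filter Polynomial Pool.Agent.Y927.GP Matrix

/-- The Syracuse map. -/
def Syr (N : ℤ) : ℤ := (3 * N + 1) / 2 ^ padicValInt 2 (3 * N + 1)

/-- The exponential sums over the family `u i ∈ ℤ / m`, `i ∈ s`, at all nonzero frequencies are at most
`#s m ^ (-ω)`. (`ZMod.stdAddChar` is the character `e(x / m)`.) -/
def Small (m : ℕ) [NeZero m] (ω : ℝ) {ι : Type} (s : Finset ι) (u : ι → ZMod m) : Prop :=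
  ∀ b : ZMod m, b ≠ 0 → ‖∑ i ∈ s, (ZMod.stdAddChar (b * u i) : ℂ)‖ ≤ s.card * (m : ℝ) ^ (-ω)

open Classical in
/-- The number of the members `i` of the family for which the integer `n i` does not have the property `P`. -/
noncomputable def exceptions {ι : Type} (s : Finset ι) (n : ι → ℤ) (P : ℤ → Prop) : ℕ :=
  (s.filter (fun i => ¬ P (n i))).card

theorem exceptions_le {ι : Type} {s : Finset ι} {n : ι → ℤ} {P : ℤ → Prop} {X : ℝ}
    (h : ∀ A ⊆ s, (∀ i ∈ A, ¬ P (n i)) → (A.card : ℝ) ≤ X) : (exceptions s n P : ℝ) ≤ X := by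
  classical
  unfold exceptions
  exact h _ (filter_subset _ _) (fun S hS => (mem_filter.1 hS).2)

/-- the accelerated map -/
def T (x : ℤ) : ℤ := if x % 2 = 0 then x / 2 else (3 * x + 1) / 2

/-- The map in the library. -/
theorem T_eq : Mo.T 2 3 (fun _ => -1) = T := by
  funext x
  unfold Mo.T T
  push_cast
  split_ifs with h
  · rfl
  · congr 1

theorem syr_fac (N : ℤ) (hN : N % 2 = 1) (hneg : N < 0) :
    ∃ s : ℕ, 1 ≤ s ∧ 3 * N + 1 = 2 ^ s * Syr N ∧ Syr N % 2 = 1 ∧ Syr N < 0 := by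
  have h0 : 3 * N + 1 ≠ 0 := by omega
  have hdvd : ((2 : ℤ) ^ padicValInt 2 (3 * N + 1)) ∣ 3 * N + 1 := by
    have := padicValInt_dvd (p := 2) (3 * N + 1)
    exact_mod_cast this
  obtain ⟨s, hs⟩ : ∃ s, s = padicValInt 2 (3 * N + 1) := ⟨_, rfl⟩
  have hS : 3 * N + 1 = 2 ^ s * Syr N := by
    unfold Syr
    rw [← hs] at hdvd ⊢
    rw [Int.mul_ediv_cancel' hdvd]
  have hs1 : 1 ≤ s := by
    rw [hs]
    have h2 : (2 : ℤ) ^ 1 ∣ 3 * N + 1 := by
      rw [pow_one]
      omega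
    have hp2 : Fact (Nat.Prime 2) := ⟨Nat.prime_two⟩
    have := (padicValInt_dvd_iff (p := 2) 1 (3 * N + 1)).1 (by exact_mod_cast h2)
    rcases this with h | h
    · exact absurd h h0
    · exact h
  have hodd : Syr N % 2 = 1 := by
    by_contra h
    have h3 : (2 : ℤ) ∣ Syr N := by omega
    have h4 : ((2 : ℕ) : ℤ) ^ (s + 1) ∣ 3 * N + 1 := by
      rw [hS, pow_succ]
      push_cast
      exact mul_dvd_mul_left _ h3
    have : Fact (Nat.Prime 2) := ⟨Nat.prime_two⟩
    rcases (padicValInt_dvd_iff (p := 2) (s + 1) (3 * N + 1)).1 h4 with h | h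
    · exact h0 h
    · rw [← hs] at h
      omega
  refine ⟨s, hs1, hS, hodd, ?_⟩
  by_contra h
  have h5 : 0 ≤ 2 ^ s * Syr N := mul_nonneg (by positivity) (by omega)
  omega

/-- the terms of the orbit of the accelerated map are the terms of the Syracuse orbit times powers of two -/
theorem T_Syr (N : ℤ) (hN : N % 2 = 1) (hneg : N < 0) (k : ℕ) :
    ∃ k' s : ℕ, T^[k] N = 2 ^ s * Syr^[k'] N ∧ Syr^[k'] N % 2 = 1 ∧ Syr^[k'] N < 0 := by
  induction k with
  | zero => exact ⟨0, 0, by simp, hN, hneg⟩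
  | succ k ih =>
    obtain ⟨k', s, h1, h2, h3⟩ := ih
    rw [Function.iterate_succ_apply', h1]
    rcases Nat.eq_zero_or_pos s with h0 | h0
    · subst h0
      rw [pow_zero, one_mul]
      obtain ⟨s, hs1, hs2, hs3, hs4⟩ := syr_fac _ h2 h3
      refine ⟨k' + 1, s - 1, ?_, ?_, ?_⟩
      · rw [Function.iterate_succ_apply']
        unfold T
        rw [if_neg (by omega), hs2]
        obtain ⟨r, rfl⟩ : ∃ r, s = r + 1 := ⟨s - 1, by omega⟩
        rw [Nat.add_sub_cancel]
        have : (2 : ℤ) ^ (r + 1) * Syr (Syr^[k'] N) = 2 * (2 ^ r * Syr (Syr^[k'] N)) := by ring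
        rw [this, Int.mul_ediv_cancel_left _ (by norm_num)]
      · rw [Function.iterate_succ_apply']
        exact hs3
      · rw [Function.iterate_succ_apply']
        exact hs4
    · obtain ⟨r, rfl⟩ : ∃ r, s = r + 1 := ⟨s - 1, by omega⟩
      refine ⟨k', r, ?_, h2, h3⟩
      have : (2 : ℤ) ^ (r + 1) * Syr^[k'] N = 2 * (2 ^ r * Syr^[k'] N) := by ring
      rw [this]
      unfold T
      rw [if_pos (by omega), Int.mul_ediv_cancel_left _ (by norm_num)]

theorem syr_le (N : ℤ) (hN : N % 2 = 1) (hneg : N < 0) (k : ℕ) :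
    ∃ k' : ℕ, |((Syr^[k'] N : ℤ) : ℝ)| ≤ |((T^[k] N : ℤ) : ℝ)| := by
  obtain ⟨k', s, h1, -, -⟩ := T_Syr N hN hneg k
  refine ⟨k', ?_⟩
  rw [h1]
  push_cast
  rw [abs_mul, abs_of_pos (by positivity : (0 : ℝ) < 2 ^ s)]
  exact le_mul_of_one_le_left (abs_nonneg _) (one_le_pow₀ (by norm_num))

/-- **Main theorem.** Let `f` be a polynomial of degree at least `1` with integer coefficients and `ω > 0`.

(1) There are `δ > 0` and `m₀` such that for all `m ≥ m₀`, all families with `Small m ω s u` and ALL integers `z` all but at most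
`m ^ (-δ) #s` of the integers `n = z + u i` (`0 ≤ u i < m` the least residue) have the following property: if `N = f n` is
negative and odd, then `|Syr^k(N)| < |N|` for some `k`.

(2) For every `B ≥ 1` there are `η, δ > 0` and `m₀` such that for all `m ≥ m₀`, all families with `Small m ω s u` and all integers
`z` with `|z| ≤ m ^ B` all but at most `m ^ (-δ) #s` of the integers `n = z + u i` have the following property: if `N = f n` is
negative and odd, then `|Syr^k(N)| ≤ |N| ^ (1 - η)` for some `k`.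

(3) `Small p ω` holds for every prime `p`, every `k`, all sets `A`, `A'` of vectors modulo `p` with
`#A #A' ≥ p ^ (k + 2 ω)`, every invertible matrix `Q` and arbitrary functions `f₁`, `f₂`, for the family
`x · Q y + f₁(x) + f₂(y)`, `x ∈ A`, `y ∈ A'`. -/
theorem result (f : ℤ[X]) (hf : 1 ≤ f.natDegree) (ω : ℝ) (hω : 0 < ω) :
    (∃ δ : ℝ, 0 < δ ∧ ∃ m₀ : ℕ, ∀ (m : ℕ) [NeZero m], m₀ ≤ m → ∀ (ι : Type) (s : Finset ι) (u : ι → ZMod m),
      Small m ω s u → ∀ z : ℤ,
      (exceptions s (fun i => z + ((u i).val : ℤ)) (fun n => ∀ N : ℤ, N = f.eval n → N < 0 → Odd N →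
        ∃ k : ℕ, |Syr^[k] N| < |N|) : ℝ) ≤ (m : ℝ) ^ (-δ) * s.card) ∧
    (∀ B : ℝ, 1 ≤ B → ∃ η δ : ℝ, 0 < η ∧ 0 < δ ∧ ∃ m₀ : ℕ, ∀ (m : ℕ) [NeZero m], m₀ ≤ m →
      ∀ (ι : Type) (s : Finset ι) (u : ι → ZMod m), Small m ω s u → ∀ z : ℤ, |(z : ℝ)| ≤ (m : ℝ) ^ B →
      (exceptions s (fun i => z + ((u i).val : ℤ)) (fun n => ∀ N : ℤ, N = f.eval n → N < 0 → Odd N →
        ∃ k : ℕ, |((Syr^[k] N : ℤ) : ℝ)| ≤ |(N : ℝ)| ^ (1 - η)) : ℝ) ≤ (m : ℝ) ^ (-δ) * s.card) ∧
    (∀ (p : ℕ) [Fact p.Prime] (k : ℕ) (A A' : Finset (Fin k → ZMod p)) (Q : Matrix (Fin k) (Fin k) (ZMod p)),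
      IsUnit Q.det → (p : ℝ) ^ (k + 2 * ω) ≤ A.card * A'.card → ∀ f₁ f₂ : (Fin k → ZMod p) → ZMod p,
      Small p ω (A ×ˢ A') (fun z => z.1 ⬝ᵥ Q.mulVec z.2 + f₁ z.1 + f₂ z.2)) := by
  have hc : Nat.Coprime 3 2 := by norm_num
  have hr : ∀ j : ℤ, 1 ≤ j → j < (2 : ℕ) → ((2 : ℕ) : ℤ) ∣ ((3 : ℕ) : ℤ) * j - (fun _ : ℤ => (-1 : ℤ)) j := by
    intro j h1 h2
    push_cast at h2 ⊢
    have hj : j = 1 := by omega
    rw [hj]
    norm_num
  have D := Mo.data (r := fun _ => (-1 : ℤ)) (le_refl 2) hc hr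
  have hC := Mo.cls (m := 3) (r := fun _ => (-1 : ℤ)) (le_refl 2)
  have hTT : (Pool.Agent.H319R2.Leigh.gm D).T = T := by
    rw [Pool.Agent.H319R2.Leigh.gm_T, Mo.T_eq, T_eq]
  have hmu := Mo.mu_eq (le_refl 2) D
  have hl2 : 0 < Real.log 2 := Real.log_pos (by norm_num)
  have hμ : mu (Pool.Agent.H319R2.Leigh.gm D) (Mo.CC 2) (fun _ => 1 / ((2 : ℕ) : ℝ)) < 0 := by
    rw [hmu]
    have h2 : Real.log 3 < 2 * Real.log 2 := by
      have : (2 : ℝ) * Real.log 2 = Real.log 4 := by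
        rw [show (4 : ℝ) = 2 ^ 2 by norm_num, Real.log_pow]
        norm_num
      rw [this]
      exact Real.log_lt_log (by norm_num) (by norm_num)
    push_cast
    norm_num
    linarith
  refine ⟨?_, fun B hB => ?_, ?_⟩
  · obtain ⟨c, c₂, δ, hc0, hc₂, hδ, t₀, h⟩ := Pool.Agent.V11113.CT.drop (Pool.Agent.H319R2.Leigh.gm_fac D)
      (Pool.Agent.H319R2.Leigh.gm_cls D hC) hμ hf hω
    rw [hTT] at h
    refine ⟨δ, hδ, max 2 ⌈Real.exp (max 1 t₀)⌉₊, fun m _ hm ι s u hsum z => ?_⟩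
    have hm0 : (0 : ℝ) < m := by exact_mod_cast (by have := (le_max_left _ _).trans hm; omega : 0 < m)
    have ht : max 1 t₀ ≤ Real.log m := by
      rw [Real.le_log_iff_exp_le hm0]
      exact (Nat.le_ceil _).trans (Nat.cast_le.2 ((le_max_right _ _).trans hm))
    have hconv : (m : ℝ) ^ (-δ) = Real.exp (-(δ * Real.log m)) := by
      rw [Real.rpow_def_of_pos hm0]
      congr 1
      ring
    rw [hconv]
    obtain ⟨t, htdef⟩ : ∃ t, t = Real.log m := ⟨_, rfl⟩
    rw [← htdef] at ht ⊢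
    apply exceptions_le
    intro A hA hE
    refine h m t htdef ((le_max_right _ _).trans ht) s u hsum z A hA (fun S hS => ⟨Mo.mem_S (le_refl 2) _, ?_⟩)
    rintro ⟨-, k, -, h2⟩
    apply hE S hS
    intro N hN hneg hodd
    rw [← hN] at h2
    obtain ⟨k', hk'⟩ := syr_le N (Int.odd_iff.1 hodd) hneg k
    refine ⟨k', ?_⟩
    have hN0 : 0 < |(N : ℝ)| := by
      rw [abs_pos]
      exact_mod_cast hneg.ne
    have h7 : Real.exp (-(c₂ * t)) < 1 := by
      rw [Real.exp_lt_one_iff]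
      have h8 : 1 ≤ t := (le_max_left _ _).trans ht
      have : 0 < c₂ * t := by positivity
      linarith
    have h8 : |((Syr^[k'] N : ℤ) : ℝ)| < |(N : ℝ)| := lt_of_le_of_lt (hk'.trans h2) (mul_lt_of_lt_one_left hN0 h7)
    exact_mod_cast h8
  · obtain ⟨η, δ, hη, hδ, m₀, h⟩ := Pool.Agent.V11113.CT.drop_pow (Pool.Agent.H319R2.Leigh.gm_fac D)
      (Pool.Agent.H319R2.Leigh.gm_cls D hC) hμ hf hω B hB
    rw [hTT] at h
    refine ⟨η, δ, hη, hδ, m₀, fun m _ hm ι s u hs z hz => ?_⟩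
    apply exceptions_le
    intro A hA hE
    refine h m hm s u hs z hz A hA (fun S hS => ⟨Mo.mem_S (le_refl 2) _, fun k => ?_⟩)
    by_contra hcon
    push Not at hcon
    apply hE S hS
    intro N hN hneg hodd
    rw [← hN] at hcon
    obtain ⟨k', hk'⟩ := syr_le N (Int.odd_iff.1 hodd) hneg k
    exact ⟨k', hk'.trans hcon⟩
  · intro p _ k A A' Q hQ hN f₁ f₂ b hb
    exact Pool.Agent.V11113.MR.bil_small ω p k A A' Q hQ f₁ f₂ hN b hb

end Pool.Agent.Results.MP_005f52_nt.ThinFamilies
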